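import Pool.Agent.Helper43.EV.Goals

set_option autoImplicit false

/-!
# EQV: transport of forced sets
-/

namespace Pool.Agent.Helper79.EV.EQV

open Pool.Agent.Helper43.EV

theorem orbit_image {G V G' V' : Type} [Group G] [MulAction G V] [Group G'] [MulAction G' V']
    (φ : G →* G') (e : V ≃ V') (he : ∀ (g : G) (v : V), e (g • v) = φ g • e v)
    (H : Subgroup G) (v : V) :
    MulAction.orbit (H.map φ) (e v) = e '' MulAction.orbit H v := by
  ext w
  constructor
  · rintro ⟨⟨_, g, hg, rfl⟩, rfl⟩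
    exact ⟨g • v, ⟨⟨g, hg⟩, rfl⟩, he g v⟩
  · rintro ⟨_, ⟨⟨g, hg⟩, rfl⟩, rfl⟩
    exact ⟨⟨φ g, Subgroup.mem_map_of_mem φ hg⟩, (he g v).symm⟩

theorem image_fz {K K' : Cls} {G V G' V' : Type} [Group G] [MulAction G V] [Group G']
    [MulAction G' V'] (φ : G →* G') (e : V ≃ V')
    (hK : ∀ H : Subgroup G, K G H → K' G' (H.map φ))
    (he : ∀ (g : G) (v : V), e (g • v) = φ g • e v) (h : ℕ) {A : Set V}
    (hA : Fz K G V h A) : Fz K' G' V' h (e '' A) := by
  induction hA with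
  | empty => rw [Set.image_empty]; exact Fz.empty
  | sub hAB _ ih => exact Fz.sub (Set.image_mono hAB) ih
  | tr g _ ih =>
    refine Fz.sub ?_ (Fz.tr (φ g) ih)
    rintro _ ⟨_, ⟨v, hv, rfl⟩, rfl⟩
    exact ⟨e v, ⟨v, hv, rfl⟩, (he g v).symm⟩
  | @ext H A hH hinv _ ih =>
    refine Fz.sub ?_ (Fz.ext (H.map φ) (hK H hH) ?_ ih)
    · rintro _ ⟨v, hv | hv, rfl⟩
      · exact Or.inl ⟨v, hv, rfl⟩
      · right
        show h ≤ (MulAction.orbit (H.map φ) (e v)).ncard
        rw [orbit_image φ e he, Set.ncard_image_of_injective _ e.injective]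
        exact hv
    · rintro _ ⟨g, hg, rfl⟩ _ ⟨v, hv, rfl⟩
      exact ⟨g • v, hinv g hg v hv, he g v⟩

theorem t : EQV := by
  intro K K' G V G' V' _ _ _ _ φ e hK he h hV
  have h1 := image_fz φ e hK he h hV
  rw [Set.image_univ_of_surjective e.surjective] at h1
  exact h1

end Pool.Agent.Helper79.EV.EQV
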